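import Pool.Agent.StoppingTime.Main

set_option autoImplicit false

/-!
The closed unit ball of the stopping time space, with its relative weak topology, has a countable
pi-base (real or complex scalars).
-/

namespace Pool.Agent.Results.MP_66f42e_an.StoppingTimePiBase

open Pool.Agent.StoppingTime

/-- For real or complex scalars, the closed unit ball of the stopping time space, with the
relative weak topology, admits a countable pi-base. -/
theorem result (𝕜 : Type) [RCLike 𝕜] :
    BallHasCountablePiBase 𝕜 (StoppingTimeSpace 𝕜) :=
  main

end Pool.Agent.Results.MP_66f42e_an.StoppingTimePiBase
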